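import Pool.Agent.TH818.AP.LR
import Pool.Agent.TH818.AP.Shift

/-!
# Polynomial lower bounds for linear forms in logarithms of almost all tuples of rational numbers
-/

set_option autoImplicit false

open Set

namespace Pool.Agent.Results.MP_90c6bd_nt.AlmostAllRationalTuples

/-- The `n`-tuples `q` of rational numbers in `[a, b]` with denominators at most `T` for which there are integers `b_ji`,
not all zero and of absolute value at most `T ^ κ`, with `|∑ b_ji log (q_j + s_i)| ≤ T ^ (-E)`. -/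
def Exceptional (n : ℕ) {m : ℕ} (s : Fin m → ℚ) (a b κ E T : ℝ) : Set (Fin n → ℚ) :=
  {q | (∀ j, a ≤ q j ∧ q j ≤ b ∧ ((q j).den : ℝ) ≤ T) ∧
    ∃ c : Fin n → Fin m → ℤ, c ≠ 0 ∧ (∀ j i, |(c j i : ℝ)| ≤ T ^ κ) ∧
      |∑ j, ∑ i, (c j i : ℝ) * Real.log ((q j : ℝ) + (s i : ℝ))| ≤ T ^ (-E)}

/-- Let `[a, b] ⊂ (0, ∞)`, let `s_1, …, s_m` be distinct rational numbers `≥ 0` (for instance `m = 1`, `s_1 = 0`), let
`n, m ≥ 1`, `κ ≥ 0` and `β > 2 - 2 / (n m + 1)`. There are `E` and `C` such that for all `T ≥ 1` the number of exceptional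
`n`-tuples is at most `C T^(2(n - 1) + β)`. -/
theorem result (n m : ℕ) (hn : 1 ≤ n) (hm : 1 ≤ m) (s : Fin m → ℚ) (hs : Function.Injective s) (hs0 : ∀ i, 0 ≤ s i)
    (a b : ℝ) (ha : 0 < a) (hab : a < b) (κ β : ℝ) (hκ : 0 ≤ κ) (hβ : 2 - 2 / ((n : ℝ) * m + 1) < β) :
    ∃ E C : ℝ, ∀ T : ℝ, 1 ≤ T → (Exceptional n s a b κ E T).Finite ∧
      ((Exceptional n s a b κ E T).ncard : ℝ) ≤ C * T ^ (2 * ((n : ℝ) - 1) + β) := by
  have hinj : Function.Injective fun i => (s i : ℝ) := fun i i' h => hs (Rat.cast_injective h)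
  have hs0' : ∀ i, (0 : ℝ) ≤ (s i : ℝ) := fun i => by exact_mod_cast hs0 i
  exact TH818.AP.homR (fun i (t : ℝ) => Real.log (t + (s i : ℝ))) a b hab
    (fun i t ht => by
      have h2 : AnalyticAt ℝ (fun t : ℝ => t + (s i : ℝ)) t := analyticAt_id.add analyticAt_const
      refine h2.log ?_
      have h3 := hs0' i
      have h4 := ht.1
      have h5 : (0 : ℝ) < t + (s i : ℝ) := by linarith
      exact h5)
    (TH818.AP.shift_indep _ hinj hs0' a b ha hab) hm n hn κ β hκ (by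
      refine lt_of_le_of_lt (le_of_eq ?_) hβ
      have : (0 : ℝ) < (n : ℝ) * m + 1 := by positivity
      field_simp
      ring)

end Pool.Agent.Results.MP_90c6bd_nt.AlmostAllRationalTuples
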