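import Mathlib
import Pool.Agent.TH201.LW.Few2

/-!
# Lang's lower bound: a square-root bound for the exceptional tuples of rationals

For fixed non-zero integers `b_1, ..., b_n` Lang's inequality with `C = 1` and without loss in the
exponent fails for at most `C(n, ε) Y ^ (1 + ε)` of the tuples `a` of positive rationals with
`H(a_1) ⋯ H(a_n) ≤ Y`, where `H` is the multiplicative height (the number of these tuples is at
least a constant times `Y ^ 2`); the constant `C(n, ε)` does not depend on `b`.  Hence, for every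
finite set `𝓑` of vectors `b`, it holds for all `b ∈ 𝓑` at once outside a set of at most
`C(n, ε) |𝓑| Y ^ (1 + ε)` tuples `a`.
-/

set_option autoImplicit false

namespace Pool.Agent.Results.MP_90c6bd_nt.SquareRootRationals

open Finset

/-- The multiplicative height of a rational number. -/
def hgt (x : ℚ) : ℕ := max x.num.natAbs x.den

/-- The linear form `b_1 log a_1 + ... + b_n log a_n`. -/
noncomputable def Lam {n : ℕ} (a : Fin n → ℚ) (b : Fin n → ℤ) : ℝ :=
  ∑ i, (b i : ℝ) * Real.log (a i)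

/-- `B_j = max (1, |b_j|)`. -/
def Bj (x : ℤ) : ℕ := max 1 x.natAbs

/-- The largest of the `B_j`. -/
def maxB {n : ℕ} (b : Fin n → ℤ) : ℕ := univ.sup fun i => Bj (b i)

/-- The product of the `B_j A_j ^ 2`. -/
def prodBA {n : ℕ} (a : Fin n → ℚ) (b : Fin n → ℤ) : ℕ := ∏ i, Bj (b i) * hgt (a i) ^ 2

/-- The tuples `a` of positive rationals with `H(a_1) ⋯ H(a_n) ≤ Y` for which Lang's inequality
with `C = 1` and exponent `1 + η` fails for some `b ∈ 𝓑`. -/
def Exceptional {n : ℕ} (Y : ℕ) (η : ℝ) (𝓑 : Finset (Fin n → ℤ)) : Set (Fin n → ℚ) :=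
  {a | (∀ i, 0 < a i) ∧ ∏ i, hgt (a i) ≤ Y ∧
    ∃ b ∈ 𝓑, |Lam a b| ≤ (maxB b : ℝ) / (prodBA a b : ℝ) ^ (1 + η)}

theorem hgt_pos (x : ℚ) : 0 < hgt x := lt_of_lt_of_le x.den_pos (le_max_right _ _)

/-- numerators and denominators as one tuple of natural numbers -/
def nd {n : ℕ} (a : Fin n → ℚ) : Fin n ⊕ Fin n → ℕ :=
  Sum.elim (fun i => (a i).num.natAbs) (fun i => (a i).den)

theorem nd_inj {n : ℕ} (a a' : Fin n → ℚ) (ha : ∀ i, 0 < a i) (ha' : ∀ i, 0 < a' i)
    (h : nd a = nd a') : a = a' := by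
  funext i
  have h1 := congrFun h (Sum.inl i)
  have h2 := congrFun h (Sum.inr i)
  simp only [nd, Sum.elim_inl, Sum.elim_inr] at h1 h2
  have h3 := Rat.num_pos.2 (ha i)
  have h4 := Rat.num_pos.2 (ha' i)
  exact Rat.ext (by omega) h2

/-- The sum over both halves is the linear form. -/
theorem sum_nd {n : ℕ} (a : Fin n → ℚ) (ha : ∀ i, 0 < a i) (b : Fin n → ℤ) :
    ∑ j, (Sum.elim (fun i => (b i : ℝ)) (fun i => -(b i : ℝ)) j) * Real.log (nd a j) =
      Lam a b := by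
  rw [Fintype.sum_sum_type, Lam, ← sum_add_distrib]
  refine sum_congr rfl fun i _ => ?_
  simp only [nd, Sum.elim_inl, Sum.elim_inr]
  have h3 := Rat.num_pos.2 (ha i)
  have h4 : ((a i : ℚ) : ℝ) = ((a i).num.natAbs : ℝ) / ((a i).den : ℝ) := by
    have h5 : ((a i).num : ℚ) / (a i).den = a i := Rat.num_div_den (a i)
    have h6 : (((a i).num.natAbs : ℕ) : ℤ) = (a i).num := Int.natAbs_of_nonneg h3.le
    calc ((a i : ℚ) : ℝ) = (((a i).num : ℚ) / (a i).den : ℚ) := by rw [h5]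
      _ = _ := by
          push_cast
          rw [← Int.cast_natCast (a i).num.natAbs, h6]
  have h7 : (((a i).num.natAbs : ℕ) : ℝ) ≠ 0 := by
    have : (a i).num.natAbs ≠ 0 := by omega
    exact_mod_cast this
  have h8 : (((a i).den : ℕ) : ℝ) ≠ 0 := by exact_mod_cast (a i).den_nz
  rw [h4, Real.log_div h7 h8]
  ring

/-- **Square-root bound for the exceptional tuples of rationals.** -/
theorem result (n : ℕ) (hn : 1 ≤ n) (ε : ℝ) (hε : 0 < ε) :
    ∃ C : ℝ, 0 < C ∧ ∀ Y : ℕ, 1 ≤ Y → ∀ η : ℝ, 0 ≤ η →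
      ∀ 𝓑 : Finset (Fin n → ℤ), (∀ b ∈ 𝓑, ∀ i, b i ≠ 0) →
        (Exceptional Y η 𝓑).Finite ∧
          ((Exceptional Y η 𝓑).ncard : ℝ) ≤ C * (𝓑.card : ℝ) * (Y : ℝ) ^ (1 + ε) := by
  classical
  have : Nonempty (Fin n ⊕ Fin n) := ⟨Sum.inl ⟨0, hn⟩⟩
  obtain ⟨C, hC0, hC⟩ := Pool.Agent.TH201.LW.few2 (κ := Fin n ⊕ Fin n) (ε / 2) (by positivity)
  refine ⟨C, hC0, fun Y hY η hη 𝓑 h𝓑 => ?_⟩
  have hY0 : (0 : ℝ) ≤ Y := by positivity
  set Box : Finset (Fin n ⊕ Fin n → ℕ) := Fintype.piFinset fun _ => Icc 1 (Y ^ 2) with hBox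
  set β : (Fin n → ℤ) → Fin n ⊕ Fin n → ℝ := fun b =>
    Sum.elim (fun i => (b i : ℝ)) (fun i => -(b i : ℝ)) with hβ
  set S : (Fin n → ℤ) → Finset (Fin n ⊕ Fin n → ℕ) :=
    fun b => Box.filter fun x => ∏ j, x j ≤ Y ^ 2 ∧
      |∑ j, β b j * Real.log (x j) + 0| ≤ 1 / ∏ j, (x j : ℝ) with hS
  have hSc : ∀ b ∈ 𝓑, ((S b).card : ℝ) ≤ C * (Y : ℝ) ^ (1 + ε) := by
    intro b hb
    have h1 := hC (Y ^ 2) (Nat.one_le_pow _ _ hY) (β b) 0 (fun j => ?_) (S b) ?_
    · refine h1.trans (le_of_eq ?_)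
      push_cast
      rw [← Real.rpow_natCast, ← Real.rpow_mul hY0]
      congr 2
      push_cast
      ring
    · have h2 : ∀ i, (1 : ℝ) ≤ |(b i : ℝ)| := fun i => by
        have : (1 : ℤ) ≤ |b i| := Int.one_le_abs (h𝓑 b hb i)
        exact_mod_cast this
      rcases j with i | i
      · simpa [hβ] using h2 i
      · simpa [hβ] using h2 i
    · intro x hx
      rw [hS, mem_filter, hBox, Fintype.mem_piFinset] at hx
      exact ⟨fun j => (mem_Icc.1 (hx.1 j)).1, hx.2.1, hx.2.2⟩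
  have hmaps : ∀ a ∈ Exceptional Y η 𝓑, nd a ∈ 𝓑.biUnion S := by
    rintro a ⟨ha, haY, b, hb, hab⟩
    have hnum : ∀ i, 1 ≤ (a i).num.natAbs := fun i => by
      have := Rat.num_pos.2 (ha i)
      omega
    have hden : ∀ i, 1 ≤ (a i).den := fun i => (a i).den_pos
    have hnd1 : ∀ j, 1 ≤ nd a j := by
      rintro (i | i)
      · exact hnum i
      · exact hden i
    have hprod : ∏ j, nd a j = ∏ i, (a i).num.natAbs * (a i).den := by
      rw [Fintype.prod_sum_type, prod_mul_distrib]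
      rfl
    have hle : ∏ j, nd a j ≤ ∏ i, hgt (a i) ^ 2 := by
      rw [hprod]
      refine prod_le_prod' fun i _ => ?_
      rw [sq]
      exact Nat.mul_le_mul (le_max_left _ _) (le_max_right _ _)
    have hleY : ∏ j, nd a j ≤ Y ^ 2 := by
      refine hle.trans ?_
      rw [prod_pow]
      exact Nat.pow_le_pow_left haY 2
    have hpos : 0 < ∏ j, nd a j := Nat.pos_of_ne_zero (prod_ne_zero_iff.2 fun j _ => by
      have := hnd1 j
      omega)
    rw [mem_biUnion]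
    refine ⟨b, hb, ?_⟩
    rw [hS, mem_filter, hBox, Fintype.mem_piFinset]
    refine ⟨fun j => mem_Icc.2 ⟨hnd1 j, ?_⟩, hleY, ?_⟩
    · exact (Nat.le_of_dvd hpos (dvd_prod_of_mem _ (mem_univ j))).trans hleY
    · rw [hβ, sum_nd a ha b, add_zero]
      refine hab.trans ?_
      have hBpos : 0 < ∏ i, Bj (b i) := prod_pos fun i _ => lt_of_lt_of_le one_pos
        (le_max_left _ _)
      have hmax : maxB b ≤ ∏ i, Bj (b i) := Finset.sup_le fun i _ =>
        Nat.le_of_dvd hBpos (dvd_prod_of_mem (fun i => Bj (b i)) (mem_univ i))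
      have hBA : prodBA a b = (∏ i, Bj (b i)) * ∏ i, hgt (a i) ^ 2 := by
        unfold prodBA
        rw [prod_mul_distrib]
      have hBApos : 0 < prodBA a b := by
        rw [hBA]
        exact Nat.mul_pos hBpos (lt_of_lt_of_le hpos hle)
      have h1 : (1 : ℝ) ≤ prodBA a b := by exact_mod_cast hBApos
      have h2 : (prodBA a b : ℝ) ≤ (prodBA a b : ℝ) ^ (1 + η) := by
        calc (prodBA a b : ℝ) = (prodBA a b : ℝ) ^ (1 : ℝ) := (Real.rpow_one _).symm
          _ ≤ _ := Real.rpow_le_rpow_of_exponent_le h1 (by linarith)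
      have h3 : (0 : ℝ) < ∏ j, (nd a j : ℝ) := by exact_mod_cast hpos
      rw [div_le_div_iff₀ (by linarith) h3, one_mul]
      refine le_trans ?_ h2
      rw [hBA]
      push_cast
      apply mul_le_mul
      · exact_mod_cast hmax
      · exact_mod_cast hle
      · positivity
      · exact_mod_cast hBpos.le
  have hinj : Set.InjOn nd (Exceptional Y η 𝓑) := fun a ha a' ha' h =>
    nd_inj a a' ha.1 ha'.1 h
  have hmaps' : Set.MapsTo nd (Exceptional Y η 𝓑) (↑(𝓑.biUnion S) : Set (Fin n ⊕ Fin n → ℕ)) :=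
    fun a ha => mem_coe.2 (hmaps a ha)
  refine ⟨Set.Finite.of_injOn hmaps' hinj (finite_toSet _), ?_⟩
  have h1 : (Exceptional Y η 𝓑).ncard ≤ (𝓑.biUnion S).card := by
    rw [← Set.ncard_coe_finset]
    exact Set.ncard_le_ncard_of_injOn nd hmaps' hinj (finite_toSet _)
  calc ((Exceptional Y η 𝓑).ncard : ℝ) ≤ ((𝓑.biUnion S).card : ℝ) := by exact_mod_cast h1
    _ ≤ ∑ b ∈ 𝓑, ((S b).card : ℝ) := by exact_mod_cast card_biUnion_le
    _ ≤ ∑ _b ∈ 𝓑, C * (Y : ℝ) ^ (1 + ε) := sum_le_sum hSc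
    _ = C * (𝓑.card : ℝ) * (Y : ℝ) ^ (1 + ε) := by
        rw [sum_const, nsmul_eq_mul]
        ring

end Pool.Agent.Results.MP_90c6bd_nt.SquareRootRationals
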